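import Pool.Agent.Q14.Val

/-!
# A monomial ideal whose symbolic defect has branches with different leading coefficients
-/

set_option autoImplicit false

namespace Pool.Agent.Results.MP_a342dd_al.UnequalBranches

open MvPolynomial Q14.Mono

/-- The `n`-th symbolic power `⋂_{p ∈ Ass(R/I)} (I^n R_p ∩ R)`: the `f` such that for every
associated prime `p` of `R/I` there is `s ∉ p` with `s f ∈ I^n`. -/
def symb {R : Type*} [CommRing R] (I : Ideal R) (n : ℕ) : Ideal R where
  carrier := {f | ∀ p ∈ associatedPrimes R (R ⧸ I), ∃ s, s ∉ p ∧ s * f ∈ I ^ n}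
  zero_mem' := by
    intro p hp
    refine ⟨1, ?_, by simp⟩
    rw [← Ideal.eq_top_iff_one]
    exact (AssociatedPrimes.mem_iff.mp hp).isPrime.ne_top
  add_mem' := by
    intro f g hf hg p hp
    have hprime := (AssociatedPrimes.mem_iff.mp hp).isPrime
    obtain ⟨s, hs, hsf⟩ := hf p hp
    obtain ⟨t, ht, htg⟩ := hg p hp
    refine ⟨s * t, fun h => (hprime.mem_or_mem h).elim hs ht, ?_⟩
    have : s * t * (f + g) = t * (s * f) + s * (t * g) := by ring
    rw [this]
    exact Ideal.add_mem _ (Ideal.mul_mem_left _ _ hsf) (Ideal.mul_mem_left _ _ htg)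
  smul_mem' := by
    intro c f hf p hp
    obtain ⟨s, hs, hsf⟩ := hf p hp
    refine ⟨s, hs, ?_⟩
    have : s * (c • f) = c * (s * f) := by rw [smul_eq_mul]; ring
    rw [this]
    exact Ideal.mul_mem_left _ _ hsf

/-- The homogeneous maximal ideal. -/
noncomputable def maxIdeal (k : Type*) [Field k] (r : ℕ) : Ideal (MvPolynomial (Fin r) k) :=
  Ideal.span (Set.range X)

/-- The symbolic defect `dim_k I^{(n)} / (I^n + 𝔪 I^{(n)})`. -/
noncomputable def sdef {k : Type*} [Field k] {r : ℕ} (I : Ideal (MvPolynomial (Fin r) k)) (n : ℕ) :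
    ℕ :=
  Module.finrank k (↥(symb I n) ⧸ (I ^ n ⊔ maxIdeal k r * symb I n).submoduleOf (symb I n))

/-- `I` is generated by monomials. -/
def IsMonomialIdeal {k : Type*} [Field k] {r : ℕ} (I : Ideal (MvPolynomial (Fin r) k)) : Prop :=
  ∃ s : Set (Fin r →₀ ℕ), I = Ideal.span ((fun u => monomial u (1 : k)) '' s)

/-- `P_0, …, P_{p-1}` are the branches of the function `f`, for the period `p ≥ 1`. -/
def IsBranches (f : ℕ → ℕ) (p : ℕ) (P : Fin p → Polynomial ℚ) : Prop :=
  1 ≤ p ∧ ∃ N : ℕ, ∀ n ≥ N, ∀ i : Fin p, n % p = i → (f n : ℚ) = (P i).eval (n : ℚ)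

/-- All branches have the same coefficient of `t^d`, where `d` is the maximum of the degrees. -/
def EqualLeading {p : ℕ} (P : Fin p → Polynomial ℚ) : Prop :=
  ∀ i j : Fin p, (P i).coeff (Finset.univ.sup fun l => (P l).natDegree) =
    (P j).coeff (Finset.univ.sup fun l => (P l).natDegree)

/-- The ideal `(x²y, xyz, xz², z³)` of `k[x,y,z]`. -/
noncomputable def I₀ (k : Type*) [Field k] : Ideal (MvPolynomial (Fin 3) k) :=
  Ideal.span {X 0 ^ 2 * X 1, X 0 * X 1 * X 2, X 0 * X 2 ^ 2, X 2 ^ 3}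

variable {K : Type*} [Field K]

/-- The exponent `(a, b, c)`. -/
noncomputable def vec (a b c : ℕ) : Fin 3 →₀ ℕ := Finsupp.equivFunOnFinite.symm ![a, b, c]

@[simp] lemma vec_zero (a b c : ℕ) : vec a b c 0 = a := rfl
@[simp] lemma vec_one (a b c : ℕ) : vec a b c 1 = b := rfl
@[simp] lemma vec_two (a b c : ℕ) : vec a b c 2 = c := rfl

lemma ext3 {u v : Fin 3 →₀ ℕ} (h0 : u 0 = v 0) (h1 : u 1 = v 1) (h2 : u 2 = v 2) : u = v := by
  ext i; fin_cases i <;> assumption

lemma le_iff3 {u v : Fin 3 →₀ ℕ} : u ≤ v ↔ u 0 ≤ v 0 ∧ u 1 ≤ v 1 ∧ u 2 ≤ v 2 := by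
  constructor
  · intro h; exact ⟨h 0, h 1, h 2⟩
  · rintro ⟨h0, h1, h2⟩ i; fin_cases i <;> assumption

lemma monomial_vec (a b c : ℕ) :
    (monomial (vec a b c) (1 : K)) = X 0 ^ a * X 1 ^ b * X 2 ^ c := by
  rw [monomial_eq, map_one, one_mul, Finsupp.prod_fintype _ _ (by simp), Fin.prod_univ_three]
  rfl

/-- The four generators. -/
def gens : Set (Fin 3 →₀ ℕ) := {vec 2 1 0, vec 1 1 1, vec 1 0 2, vec 0 0 3}

lemma I₀_eq : I₀ K = Ideal.span ((fun u => monomial u (1 : K)) '' gens) := by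
  unfold I₀ gens
  congr 1
  simp only [Set.image_insert_eq, Set.image_singleton, monomial_vec]
  simp

lemma isMon_I₀ : IsMon (I₀ K) := by rw [I₀_eq]; exact isMon_span _

lemma mem_I₀ {u : Fin 3 →₀ ℕ} : monomial u (1 : K) ∈ I₀ K ↔
    ∃ i j k l : ℕ, i + j + k + l = 1 ∧ 2 * i + j + k ≤ u 0 ∧ i + j ≤ u 1 ∧
      j + 2 * k + 3 * l ≤ u 2 := by
  rw [I₀_eq, monomial_mem_span_iff]
  constructor
  · rintro ⟨v, hv, hle⟩
    rw [le_iff3] at hle
    simp only [gens, Set.mem_insert_iff, Set.mem_singleton_iff] at hv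
    rcases hv with rfl | rfl | rfl | rfl <;> simp only [vec_zero, vec_one, vec_two] at hle
    · exact ⟨1, 0, 0, 0, by omega⟩
    · exact ⟨0, 1, 0, 0, by omega⟩
    · exact ⟨0, 0, 1, 0, by omega⟩
    · exact ⟨0, 0, 0, 1, by omega⟩
  · rintro ⟨i, j, k, l, h1, h2, h3, h4⟩
    rcases (show i = 1 ∨ j = 1 ∨ k = 1 ∨ l = 1 by omega) with rfl | rfl | rfl | rfl
    · refine ⟨vec 2 1 0, by simp [gens], le_iff3.mpr ?_⟩
      simp only [vec_zero, vec_one, vec_two]; omega
    · refine ⟨vec 1 1 1, by simp [gens], le_iff3.mpr ?_⟩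
      simp only [vec_zero, vec_one, vec_two]; omega
    · refine ⟨vec 1 0 2, by simp [gens], le_iff3.mpr ?_⟩
      simp only [vec_zero, vec_one, vec_two]; omega
    · refine ⟨vec 0 0 3, by simp [gens], le_iff3.mpr ?_⟩
      simp only [vec_zero, vec_one, vec_two]; omega

/-- The monomials in the powers. -/
lemma mem_pow {n : ℕ} {u : Fin 3 →₀ ℕ} : monomial u (1 : K) ∈ I₀ K ^ n ↔
    ∃ i j k l : ℕ, i + j + k + l = n ∧ 2 * i + j + k ≤ u 0 ∧ i + j ≤ u 1 ∧
      j + 2 * k + 3 * l ≤ u 2 := by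
  induction n generalizing u with
  | zero =>
    rw [pow_zero, Ideal.one_eq_top]
    constructor
    · intro _; exact ⟨0, 0, 0, 0, by omega⟩
    · intro _; exact Submodule.mem_top
  | succ n ih =>
    constructor
    · intro h
      rw [pow_succ] at h
      obtain ⟨v, w, hv, hw, rfl⟩ := (isMon_I₀.pow n).monomial_mem_mul isMon_I₀ h
      obtain ⟨i, j, k, l, h1, h2, h3, h4⟩ := ih.mp hv
      obtain ⟨i', j', k', l', h1', h2', h3', h4'⟩ := mem_I₀.mp hw
      refine ⟨i + i', j + j', k + k', l + l', ?_, ?_, ?_, ?_⟩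
      · omega
      · rw [Finsupp.add_apply]; omega
      · rw [Finsupp.add_apply]; omega
      · rw [Finsupp.add_apply]; omega
    · rintro ⟨i, j, k, l, h1, h2, h3, h4⟩
      have key : ∃ v ∈ gens, ∃ i' j' k' l' : ℕ, i' + j' + k' + l' = n ∧
          2 * i' + j' + k' + v 0 ≤ u 0 ∧ i' + j' + v 1 ≤ u 1 ∧
          j' + 2 * k' + 3 * l' + v 2 ≤ u 2 := by
        rcases (show 0 < i ∨ 0 < j ∨ 0 < k ∨ 0 < l by omega) with h | h | h | h
        · exact ⟨vec 2 1 0, by simp [gens], i - 1, j, k, l, by omega, by simp only [vec_zero]; omega,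
            by simp only [vec_one]; omega, by simp only [vec_two]; omega⟩
        · exact ⟨vec 1 1 1, by simp [gens], i, j - 1, k, l, by omega, by simp only [vec_zero]; omega,
            by simp only [vec_one]; omega, by simp only [vec_two]; omega⟩
        · exact ⟨vec 1 0 2, by simp [gens], i, j, k - 1, l, by omega, by simp only [vec_zero]; omega,
            by simp only [vec_one]; omega, by simp only [vec_two]; omega⟩
        · exact ⟨vec 0 0 3, by simp [gens], i, j, k, l - 1, by omega, by simp only [vec_zero]; omega,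
            by simp only [vec_one]; omega, by simp only [vec_two]; omega⟩
      obtain ⟨v, hv, i', j', k', l', e1, e2, e3, e4⟩ := key
      have hle : v ≤ u := le_iff3.mpr ⟨by omega, by omega, by omega⟩
      obtain ⟨z, rfl⟩ := exists_add_of_le hle
      simp only [Finsupp.add_apply] at e2 e3 e4
      have hz : monomial z (1 : K) ∈ I₀ K ^ n :=
        ih.mpr ⟨i', j', k', l', e1, by omega, by omega, by omega⟩
      have hv' : monomial v (1 : K) ∈ I₀ K := by
        rw [I₀_eq]; exact Ideal.subset_span ⟨v, hv, rfl⟩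
      rw [← one_mul (1 : K), ← monomial_mul, pow_succ, mul_comm (I₀ K ^ n)]
      exact Ideal.mul_mem_mul hv' hz

/-- The three weights. -/
def w₁ : Fin 3 → ℕ := ![1, 0, 1]
/-- The three weights. -/
def w₂ : Fin 3 → ℕ := ![2, 0, 1]
/-- The three weights. -/
def w₃ : Fin 3 → ℕ := ![0, 2, 1]

lemma weight₁ (u : Fin 3 →₀ ℕ) : Finsupp.weight w₁ u = u 0 + u 2 := by
  rw [Finsupp.weight_apply, Finsupp.sum_fintype _ _ (by simp), Fin.sum_univ_three]
  simp [w₁]

lemma weight₂ (u : Fin 3 →₀ ℕ) : Finsupp.weight w₂ u = 2 * u 0 + u 2 := by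
  rw [Finsupp.weight_apply, Finsupp.sum_fintype _ _ (by simp), Fin.sum_univ_three]
  simp [w₂]; ring

lemma weight₃ (u : Fin 3 →₀ ℕ) : Finsupp.weight w₃ u = 2 * u 1 + u 2 := by
  rw [Finsupp.weight_apply, Finsupp.sum_fintype _ _ (by simp), Fin.sum_univ_three]
  simp [w₃]; ring

/-- The ideal of the monomials satisfying the three inequalities. -/
noncomputable def SS (K : Type*) [Field K] (n : ℕ) : Ideal (MvPolynomial (Fin 3) K) :=
  WtGE K w₁ (2 * n) ⊓ WtGE K w₂ (3 * n) ⊓ WtGE K w₃ (2 * n)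

lemma isMon_SS (n : ℕ) : IsMon (SS K n) :=
  ((isMon_WtGE _ _).inf (isMon_WtGE _ _)).inf (isMon_WtGE _ _)

lemma mem_SS {n : ℕ} {u : Fin 3 →₀ ℕ} : monomial u (1 : K) ∈ SS K n ↔
    2 * n ≤ u 0 + u 2 ∧ 3 * n ≤ 2 * u 0 + u 2 ∧ 2 * n ≤ 2 * u 1 + u 2 := by
  unfold SS
  rw [Submodule.mem_inf, Submodule.mem_inf, monomial_mem_WtGE, monomial_mem_WtGE,
    monomial_mem_WtGE, weight₁, weight₂, weight₃, and_assoc]

lemma pow_le₁ (n : ℕ) : I₀ K ^ n ≤ WtGE K w₁ (2 * n) := by
  intro f hf u hu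
  have := mem_pow.mp ((isMon_I₀.pow n) f hf u hu)
  obtain ⟨i, j, k, l, h1, h2, h3, h4⟩ := this
  rw [weight₁]; omega

lemma pow_le₂ (n : ℕ) : I₀ K ^ n ≤ WtGE K w₂ (3 * n) := by
  intro f hf u hu
  have := mem_pow.mp ((isMon_I₀.pow n) f hf u hu)
  obtain ⟨i, j, k, l, h1, h2, h3, h4⟩ := this
  rw [weight₂]; omega

lemma pow_le₃ (n : ℕ) : I₀ K ^ n ≤ WtGE K w₃ (2 * n) := by
  intro f hf u hu
  have := mem_pow.mp ((isMon_I₀.pow n) f hf u hu)
  obtain ⟨i, j, k, l, h1, h2, h3, h4⟩ := this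
  rw [weight₃]; omega

/-- The two maximal associated primes. -/
def C₁ : Set (Fin 3) := {0, 2}
/-- The two maximal associated primes. -/
def C₂ : Set (Fin 3) := {1, 2}

lemma supp_w₁ : {i | w₁ i ≠ 0} = C₁ := by
  ext i; fin_cases i <;> simp [w₁, C₁]
lemma supp_w₂ : {i | w₂ i ≠ 0} = C₁ := by
  ext i; fin_cases i <;> simp [w₂, C₁]
lemma supp_w₃ : {i | w₃ i ≠ 0} = C₂ := by
  ext i; fin_cases i <;> simp [w₃, C₂]

lemma SS_one_le : SS K 1 ≤ I₀ K := by
  intro f hf
  refine mem_of_forall fun u hu => ?_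
  obtain ⟨h1, h2, h3⟩ := mem_SS.mp (isMon_SS 1 f hf u hu)
  rw [mem_I₀]
  by_cases hc : 3 ≤ u 2
  · exact ⟨0, 0, 0, 1, by omega⟩
  · by_cases hc2 : u 2 = 2
    · exact ⟨0, 0, 1, 0, by omega⟩
    · by_cases hc3 : u 2 = 1
      · exact ⟨0, 1, 0, 0, by omega⟩
      · exact ⟨1, 0, 0, 0, by omega⟩

lemma ass₁ : PV K C₁ ∈ associatedPrimes (MvPolynomial (Fin 3) K) (_ ⧸ I₀ K) := by
  have h : Submodule.colon (I₀ K) {(monomial (vec 0 1 2) (1 : K))} = PV K C₁ := by
    ext f
    rw [isMon_I₀.mem_colon_monomial, mem_PV]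
    refine forall₂_congr fun u _ => ?_
    rw [mem_I₀]
    simp only [Finsupp.add_apply, vec_zero, vec_one, vec_two]
    constructor
    · rintro ⟨i, j, k, l, h1, h2, h3, h4⟩
      by_cases h0 : u 0 = 0
      · exact ⟨2, by simp [C₁], by omega⟩
      · exact ⟨0, by simp [C₁], h0⟩
    · rintro ⟨i, hi, hui⟩
      simp only [C₁, Set.mem_insert_iff, Set.mem_singleton_iff] at hi
      rcases hi with rfl | rfl
      · exact ⟨0, 0, 1, 0, by omega⟩
      · exact ⟨0, 0, 0, 1, by omega⟩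
  rw [← h]
  exact colon_mem_associatedPrimes (by rw [h]; exact PV_isPrime _)

lemma ass₂ : PV K C₂ ∈ associatedPrimes (MvPolynomial (Fin 3) K) (_ ⧸ I₀ K) := by
  have h : Submodule.colon (I₀ K) {(monomial (vec 2 0 1) (1 : K))} = PV K C₂ := by
    ext f
    rw [isMon_I₀.mem_colon_monomial, mem_PV]
    refine forall₂_congr fun u _ => ?_
    rw [mem_I₀]
    simp only [Finsupp.add_apply, vec_zero, vec_one, vec_two]
    constructor
    · rintro ⟨i, j, k, l, h1, h2, h3, h4⟩
      by_cases h0 : u 1 = 0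
      · exact ⟨2, by simp [C₂], by omega⟩
      · exact ⟨1, by simp [C₂], h0⟩
    · rintro ⟨i, hi, hui⟩
      simp only [C₂, Set.mem_insert_iff, Set.mem_singleton_iff] at hi
      rcases hi with rfl | rfl
      · exact ⟨0, 1, 0, 0, by omega⟩
      · exact ⟨0, 0, 1, 0, by omega⟩
  rw [← h]
  exact colon_mem_associatedPrimes (by rw [h]; exact PV_isPrime _)

/-- Every associated prime is contained in one of the two. -/
lemma ass_le (p : Ideal (MvPolynomial (Fin 3) K))
    (hp : p ∈ associatedPrimes (MvPolynomial (Fin 3) K) (_ ⧸ I₀ K)) :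
    p ≤ PV K C₁ ∨ p ≤ PV K C₂ := by
  rw [AssociatedPrimes.mem_iff, isAssociatedPrime_iff] at hp
  obtain ⟨hprime, x, hx⟩ := hp
  obtain ⟨f, rfl⟩ := Ideal.Quotient.mk_surjective x
  have hmem : ∀ g, g ∈ p ↔ g * f ∈ I₀ K := by
    intro g
    rw [hx, Submodule.mem_colon_singleton, Submodule.mem_bot]
    have h1 : g • (Ideal.Quotient.mk (I₀ K) f) = Ideal.Quotient.mk (I₀ K) (g * f) := by
      rw [map_mul]; rfl
    rw [h1, Ideal.Quotient.eq_zero_iff_mem]
  have hf : f ∉ I₀ K := by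
    intro h
    apply hprime.ne_top
    rw [Ideal.eq_top_iff_one, hmem, one_mul]
    exact h
  have hun : (p : Set (MvPolynomial (Fin 3) K)) ⊆ PV K C₁ ∪ PV K C₂ := by
    intro g hg
    by_contra hcon
    rw [Set.mem_union, not_or] at hcon
    have hg' := (hmem g).mp hg
    apply hf
    apply SS_one_le
    have h1 := pow_le₁ (K := K) 1 (by rw [pow_one]; exact hg')
    have h2 := pow_le₂ (K := K) 1 (by rw [pow_one]; exact hg')
    have h3 := pow_le₃ (K := K) 1 (by rw [pow_one]; exact hg')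
    exact ⟨⟨mem_WtGE_of_mul_mem w₁ _ h1 (by rw [supp_w₁]; exact hcon.1),
      mem_WtGE_of_mul_mem w₂ _ h2 (by rw [supp_w₂]; exact hcon.1)⟩,
      mem_WtGE_of_mul_mem w₃ _ h3 (by rw [supp_w₃]; exact hcon.2)⟩
  exact Ideal.subset_union.mp hun

/-- The symbolic powers. -/
lemma symb_eq (n : ℕ) : symb (I₀ K) n = SS K n := by
  apply le_antisymm
  · intro f hf
    obtain ⟨s, hs, hsf⟩ := hf _ ass₁
    obtain ⟨t, ht, htf⟩ := hf _ ass₂
    exact ⟨⟨mem_WtGE_of_mul_mem w₁ _ (pow_le₁ n hsf) (by rw [supp_w₁]; exact hs),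
      mem_WtGE_of_mul_mem w₂ _ (pow_le₂ n hsf) (by rw [supp_w₂]; exact hs)⟩,
      mem_WtGE_of_mul_mem w₃ _ (pow_le₃ n htf) (by rw [supp_w₃]; exact ht)⟩
  · intro f hf p hp
    rcases ass_le p hp with h | h
    · refine ⟨monomial (vec 0 n 0) 1, fun hs => ?_, ?_⟩
      · obtain ⟨i, hi, hi2⟩ := mem_PV.mp (h hs) (vec 0 n 0) (by
          classical
          rw [support_monomial, if_neg one_ne_zero]; exact Finset.mem_singleton_self _)
        simp only [C₁, Set.mem_insert_iff, Set.mem_singleton_iff] at hi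
        rcases hi with rfl | rfl <;> simp at hi2
      · rw [mul_comm, ← smul_eq_mul, ← Submodule.mem_colon_singleton,
          (isMon_I₀.pow n).mem_colon_monomial]
        intro u hu
        obtain ⟨h1, h2, h3⟩ := mem_SS.mp (isMon_SS n f hf u hu)
        rw [mem_pow]
        simp only [Finsupp.add_apply, vec_zero, vec_one, vec_two]
        by_cases hc : u 2 ≤ n
        · exact ⟨n - u 2, u 2, 0, 0, by omega⟩
        · by_cases hc2 : 3 * n ≤ u 2
          · exact ⟨0, 0, 0, n, by omega⟩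
          · exact ⟨0, n - (u 2 - n) / 2, 0, (u 2 - n) / 2, by omega⟩
    · refine ⟨monomial (vec (2 * n) 0 0) 1, fun hs => ?_, ?_⟩
      · obtain ⟨i, hi, hi2⟩ := mem_PV.mp (h hs) (vec (2 * n) 0 0) (by
          classical
          rw [support_monomial, if_neg one_ne_zero]; exact Finset.mem_singleton_self _)
        simp only [C₂, Set.mem_insert_iff, Set.mem_singleton_iff] at hi
        rcases hi with rfl | rfl <;> simp at hi2
      · rw [mul_comm, ← smul_eq_mul, ← Submodule.mem_colon_singleton,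
          (isMon_I₀.pow n).mem_colon_monomial]
        intro u hu
        obtain ⟨h1, h2, h3⟩ := mem_SS.mp (isMon_SS n f hf u hu)
        rw [mem_pow]
        simp only [Finsupp.add_apply, vec_zero, vec_one, vec_two]
        by_cases hc : 2 * n ≤ u 2
        · exact ⟨0, 0, n, 0, by omega⟩
        · exact ⟨n - u 2 / 2, 0, u 2 / 2, 0, by omega⟩

/-- The minimal generators of the symbolic power outside of the ordinary power. -/
def Good (n a b c : ℕ) : Prop :=
  (2 * n ≤ a + c ∧ 3 * n ≤ 2 * a + c ∧ 2 * n ≤ 2 * b + c) ∧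
  (¬ ∃ i j k l : ℕ, i + j + k + l = n ∧ 2 * i + j + k ≤ a ∧ i + j ≤ b ∧ j + 2 * k + 3 * l ≤ c) ∧
  (a = 0 ∨ a + c ≤ 2 * n ∨ 2 * a + c ≤ 3 * n + 1) ∧
  (b = 0 ∨ 2 * b + c ≤ 2 * n + 1) ∧
  (c = 0 ∨ a + c ≤ 2 * n ∨ 2 * a + c ≤ 3 * n ∨ 2 * b + c ≤ 2 * n)

lemma good_iff {n : ℕ} {u : Fin 3 →₀ ℕ} :
    (monomial u (1 : K) ∈ SS K n ∧ monomial u (1 : K) ∉ I₀ K ^ n ⊔ maxIdeal K 3 * SS K n) ↔
      Good n (u 0) (u 1) (u 2) := by
  have hmax : maxIdeal K 3 = PV K Set.univ := by unfold maxIdeal PV; rw [Set.image_univ]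
  rw [hmax, (isMon_I₀.pow n).monomial_mem_sup ((isMon_PV Set.univ).mul (isMon_SS n)), not_or,
    (isMon_SS n).monomial_mem_max_mul, mem_SS, mem_pow]
  unfold Good
  constructor
  · rintro ⟨h1, h2, h3⟩
    refine ⟨h1, h2, ?_, ?_, ?_⟩
    · by_contra hcon
      apply h3
      have hle : Finsupp.single 0 1 ≤ u := by rw [Finsupp.single_le_iff]; omega
      obtain ⟨z, rfl⟩ := exists_add_of_le hle
      refine ⟨0, z, rfl, mem_SS.mpr ?_⟩
      simp only [Finsupp.add_apply, Finsupp.single_apply] at hcon h1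
      simp at hcon h1
      omega
    · by_contra hcon
      apply h3
      have hle : Finsupp.single 1 1 ≤ u := by rw [Finsupp.single_le_iff]; omega
      obtain ⟨z, rfl⟩ := exists_add_of_le hle
      refine ⟨1, z, rfl, mem_SS.mpr ?_⟩
      simp only [Finsupp.add_apply, Finsupp.single_apply] at hcon h1
      simp at hcon h1
      omega
    · by_contra hcon
      apply h3
      have hle : Finsupp.single 2 1 ≤ u := by rw [Finsupp.single_le_iff]; omega
      obtain ⟨z, rfl⟩ := exists_add_of_le hle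
      refine ⟨2, z, rfl, mem_SS.mpr ?_⟩
      simp only [Finsupp.add_apply, Finsupp.single_apply] at hcon h1
      simp at hcon h1
      omega
  · rintro ⟨h1, h2, h3, h4, h5⟩
    refine ⟨h1, h2, ?_⟩
    rintro ⟨i, v, rfl, hv⟩
    have hv' := mem_SS.mp hv
    simp only [Finsupp.add_apply, Finsupp.single_apply] at h3 h4 h5
    fin_cases i <;> simp at h3 h4 h5 <;> omega

/-- The value of the first coordinate. -/
def aa (n c : ℕ) : ℕ := if c ≤ n then 2 * n - c else (3 * n - c + 1) / 2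

lemma good_even {m a b c : ℕ} (hm : 2 ≤ m) : Good (2 * m) a b c ↔
    (a = aa (2 * m) c ∧ b = 2 * m - c / 2 ∧
      ((2 ≤ c ∧ c ≤ 2 * m) ∨ (c % 2 = 0 ∧ 2 * m + 2 ≤ c ∧ c ≤ 6 * m - 2))) := by
  unfold Good aa
  constructor
  · rintro ⟨h1, h2, h3, h4, h5⟩
    have hc0 : c ≠ 0 := by
      rintro rfl
      exact h2 ⟨2 * m, 0, 0, 0, by omega⟩
    have hc1 : c ≠ 1 := by
      rintro rfl
      exact h2 ⟨2 * m - 1, 1, 0, 0, by omega⟩
    have hc2 : ¬ 6 * m ≤ c := by
      intro h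
      exact h2 ⟨0, 0, 0, 2 * m, by omega⟩
    split_ifs with h
    · omega
    · omega
  · rintro ⟨ha, hb, hc⟩
    split_ifs at ha with h
    · refine ⟨by omega, ?_, by omega, by omega, by omega⟩
      rintro ⟨i, j, k, l, e1, e2, e3, e4⟩
      omega
    · refine ⟨by omega, ?_, by omega, by omega, by omega⟩
      rintro ⟨i, j, k, l, e1, e2, e3, e4⟩
      omega

lemma good_odd {m a b c : ℕ} (hm : 1 ≤ m) : Good (2 * m + 1) a b c ↔
    (a = aa (2 * m + 1) c ∧ b = 2 * m + 1 - c / 2 ∧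
      ((2 ≤ c ∧ c ≤ 4 * m + 2) ∨ (c % 2 = 1 ∧ 4 * m + 3 ≤ c ∧ c ≤ 6 * m + 1))) := by
  unfold Good aa
  constructor
  · rintro ⟨h1, h2, h3, h4, h5⟩
    have hc0 : c ≠ 0 := by
      rintro rfl
      exact h2 ⟨2 * m + 1, 0, 0, 0, by omega⟩
    have hc1 : c ≠ 1 := by
      rintro rfl
      exact h2 ⟨2 * m, 1, 0, 0, by omega⟩
    have hc2 : ¬ 6 * m + 3 ≤ c := by
      intro h
      exact h2 ⟨0, 0, 0, 2 * m + 1, by omega⟩
    split_ifs with h
    · omega
    · omega
  · rintro ⟨ha, hb, hc⟩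
    split_ifs at ha with h
    · refine ⟨by omega, ?_, by omega, by omega, by omega⟩
      rintro ⟨i, j, k, l, e1, e2, e3, e4⟩
      omega
    · refine ⟨by omega, ?_, by omega, by omega, by omega⟩
      rintro ⟨i, j, k, l, e1, e2, e3, e4⟩
      omega

lemma sdef_eq_card (n : ℕ) (C : Finset ℕ)
    (hC : ∀ a b c, Good n a b c ↔ (a = aa n c ∧ b = n - c / 2 ∧ c ∈ C)) :
    sdef (I₀ K) n = C.card := by
  classical
  unfold sdef
  have hmax : maxIdeal K 3 = PV K Set.univ := by unfold maxIdeal PV; rw [Set.image_univ]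
  have hJ : IsMon (symb (I₀ K) n) := by rw [symb_eq]; exact isMon_SS n
  rw [finrank_quotient hJ
    ((isMon_I₀.pow n).sup (by rw [hmax]; exact (isMon_PV _).mul hJ))
    (C.image fun c => vec (aa n c) (n - c / 2) c)]
  · apply Finset.card_image_of_injective
    intro c c' h
    exact congrArg (fun u : Fin 3 →₀ ℕ => u 2) h
  · intro u
    rw [symb_eq, good_iff, hC, Finset.mem_image]
    constructor
    · rintro ⟨c, hc, rfl⟩
      exact ⟨rfl, rfl, hc⟩
    · rintro ⟨h1, h2, h3⟩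
      exact ⟨u 2, h3, ext3 h1.symm h2.symm rfl⟩

lemma sdef_even {m : ℕ} (hm : 2 ≤ m) : sdef (I₀ K) (2 * m) = 4 * m - 2 := by
  classical
  rw [sdef_eq_card (2 * m)
    (Finset.Icc 2 (2 * m) ∪ (Finset.Icc (m + 1) (3 * m - 1)).image (fun t => 2 * t))]
  · rw [Finset.card_union_of_disjoint, Finset.card_image_of_injective _ (by
      intro a b h; simpa using h), Nat.card_Icc, Nat.card_Icc]
    · omega
    · rw [Finset.disjoint_left]
      intro c hc hc'
      obtain ⟨t, ht, rfl⟩ := Finset.mem_image.mp hc'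
      rw [Finset.mem_Icc] at hc ht
      omega
  · intro a b c
    rw [good_even hm, Finset.mem_union, Finset.mem_Icc, Finset.mem_image]
    refine and_congr_right fun _ => and_congr_right fun _ => or_congr_right ?_
    constructor
    · rintro ⟨h1, h2, h3⟩
      exact ⟨c / 2, Finset.mem_Icc.mpr ⟨by omega, by omega⟩, by omega⟩
    · rintro ⟨t, ht, rfl⟩
      rw [Finset.mem_Icc] at ht
      omega

lemma sdef_odd {m : ℕ} (hm : 1 ≤ m) : sdef (I₀ K) (2 * m + 1) = 5 * m + 1 := by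
  classical
  rw [sdef_eq_card (2 * m + 1)
    (Finset.Icc 2 (4 * m + 2) ∪ (Finset.Icc (2 * m + 1) (3 * m)).image (fun t => 2 * t + 1))]
  · rw [Finset.card_union_of_disjoint, Finset.card_image_of_injective _ (by
      intro a b h; simpa using h), Nat.card_Icc, Nat.card_Icc]
    · omega
    · rw [Finset.disjoint_left]
      intro c hc hc'
      obtain ⟨t, ht, rfl⟩ := Finset.mem_image.mp hc'
      rw [Finset.mem_Icc] at hc ht
      omega
  · intro a b c
    rw [good_odd hm, Finset.mem_union, Finset.mem_Icc, Finset.mem_image]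
    refine and_congr_right fun _ => and_congr_right fun _ => or_congr_right ?_
    constructor
    · rintro ⟨h1, h2, h3⟩
      exact ⟨c / 2, Finset.mem_Icc.mpr ⟨by omega, by omega⟩, by omega⟩
    · rintro ⟨t, ht, rfl⟩
      rw [Finset.mem_Icc] at ht
      omega

/-- The branches. -/
noncomputable def branches : Fin 2 → Polynomial ℚ :=
  ![Polynomial.C 2 * Polynomial.X + Polynomial.C (-2),
    Polynomial.C (5 / 2) * Polynomial.X + Polynomial.C (-3 / 2)]

lemma br0 : branches 0 = Polynomial.C 2 * Polynomial.X + Polynomial.C (-2) := rfl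

lemma br1 : branches 1 = Polynomial.C (5 / 2) * Polynomial.X + Polynomial.C (-3 / 2) := rfl

/-- **The exact symbolic defect, and the negative answer.** -/
theorem result (k : Type*) [Field k] :
    IsMonomialIdeal (I₀ k) ∧
    (∀ m : ℕ, 2 ≤ m → sdef (I₀ k) (2 * m) = 4 * m - 2) ∧
    (∀ m : ℕ, 1 ≤ m → sdef (I₀ k) (2 * m + 1) = 5 * m + 1) ∧
    ¬ (∀ (r : ℕ) (I : Ideal (MvPolynomial (Fin r) k)), IsMonomialIdeal I →
      ∀ (p : ℕ) (P : Fin p → Polynomial ℚ), IsBranches (sdef I) p P → EqualLeading P) := by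
  have hmon : IsMonomialIdeal (I₀ k) := ⟨gens, I₀_eq⟩
  refine ⟨hmon, fun m hm => sdef_even hm, fun m hm => sdef_odd hm, fun h => ?_⟩
  have hb : IsBranches (sdef (I₀ k)) 2 branches := by
    refine ⟨by norm_num, 3, fun n hn i hi => ?_⟩
    obtain ⟨m, hm | hm⟩ := Nat.even_or_odd' n
    · have hi0 : i = 0 := by
        apply Fin.ext; rw [← hi, hm]; simp
      subst hi0
      rw [hm, sdef_even (by omega)]
      have : ((4 * m - 2 : ℕ) : ℚ) = 4 * m - 2 := by
        rw [Nat.cast_sub (by omega)]; push_cast; ring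
      rw [this]
      rw [br0, Polynomial.eval_add, Polynomial.eval_mul, Polynomial.eval_C, Polynomial.eval_X,
        Polynomial.eval_C]
      push_cast; ring
    · have hi1 : i = 1 := by
        apply Fin.ext; rw [← hi, hm]; simp [Nat.add_mod]
      subst hi1
      rw [hm, sdef_odd (by omega)]
      rw [br1, Polynomial.eval_add, Polynomial.eval_mul, Polynomial.eval_C, Polynomial.eval_X,
        Polynomial.eval_C]
      push_cast; ring
  have h1 := h 3 (I₀ k) hmon 2 branches hb 0 1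
  have hd : (Finset.univ.sup fun l => (branches l).natDegree) = 1 := by
    have h0 : (branches 0).natDegree = 1 := by
      rw [br0]
      exact Polynomial.natDegree_linear (by norm_num)
    have h1 : (branches 1).natDegree = 1 := by
      rw [br1]
      exact Polynomial.natDegree_linear (by norm_num)
    apply le_antisymm
    · apply Finset.sup_le
      intro i _
      fin_cases i
      · exact h0.le
      · exact h1.le
    · exact h0.ge.trans (Finset.le_sup (f := fun l => (branches l).natDegree) (Finset.mem_univ 0))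
  rw [hd, br0, br1] at h1
  simp [Polynomial.coeff_C] at h1
  norm_num at h1

end Pool.Agent.Results.MP_a342dd_al.UnequalBranches
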